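import Mathlib
import Pool.Agent.MP_76aa63_al.Defs
import Pool.Agent.MP_76aa63_al.Final

set_option autoImplicit false

namespace Pool.Agent.Results.MP_76aa63_al.FieldDependence

open Pool.Agent.MP_76aa63_al MvPolynomial

theorem ideal_eq (k : Type) [Field k] (l : ℕ) (hl : 1 ≤ l) :
    monomialIdeal k gens ^ l = up k (PI l) (PI_up l) := by
  unfold monomialIdeal
  rw [span_eq_up _ (PI 1) (PI_up 1) PI_one_iff, pow_eq l hl]

theorem betti_eq (k : Type) [Field k] (l : ℕ) (hl : 1 ≤ l) (n : ℕ) :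
    betti (n + 2) (monomialIdeal k gens ^ l) =
      T (ModuleCat.of (MvPolynomial (Fin 12) k) (Res k 12)) (n + 3)
        (MvPolynomial (Fin 12) k ⧸ up k PB PB_up) := by
  rw [← T_PI _ l hl n, ideal_eq k l hl]
  rfl

theorem result : ∃ (n : ℕ) (A : Finset (Fin n →₀ ℕ)),
    (∀ (k : Type) [Field k], (2 : k) = 0 →
      IsKodiyalam k A 4 (Polynomial.C 13) ∧ IsKodiyalam k A 5 1) ∧
    (∀ (k : Type) [Field k], (2 : k) ≠ 0 →
      IsKodiyalam k A 4 (Polynomial.C 10) ∧ IsKodiyalam k A 5 0) := by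
  refine ⟨12, gens, ?_, ?_⟩
  · intro k _ h2
    have h4 := T_SA_four_two h2
    have h3 := T_SA_three (ModuleCat.of (MvPolynomial (Fin 12) k) (Res k 12)) (X_smul_res 12)
      (length_res 12)
    rw [h4] at h3
    have h3' : T (ModuleCat.of (MvPolynomial (Fin 12) k) (Res k 12)) 3 (SA k) = 11 := by
      have h5 : (1 : ℕ∞) + 20 = 11 + 10 := by norm_num
      rw [h5] at h3
      exact (ENat.add_left_injective_of_ne_top (by simp : (10 : ℕ∞) ≠ ⊤)) h3
    refine ⟨⟨1, fun l hl => ⟨13, ?_, ?_⟩⟩, ⟨1, fun l hl => ⟨1, ?_, ?_⟩⟩⟩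
    · rw [betti_eq k l hl 2, T_B_five _ (X_smul_res 12), h4, h3']
      norm_num
    · simp
    · rw [betti_eq k l hl 3, T_B_six _ (X_smul_res 12), h4]
      norm_num
    · simp
  · intro k _ h2
    have h4 := T_SA_four_ne_two h2
    have h3 := T_SA_three (ModuleCat.of (MvPolynomial (Fin 12) k) (Res k 12)) (X_smul_res 12)
      (length_res 12)
    rw [h4] at h3
    have h3' : T (ModuleCat.of (MvPolynomial (Fin 12) k) (Res k 12)) 3 (SA k) = 10 := by
      have h5 : (0 : ℕ∞) + 20 = 10 + 10 := by norm_num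
      rw [h5] at h3
      exact (ENat.add_left_injective_of_ne_top (by simp : (10 : ℕ∞) ≠ ⊤)) h3
    refine ⟨⟨1, fun l hl => ⟨10, ?_, ?_⟩⟩, ⟨1, fun l hl => ⟨0, ?_, ?_⟩⟩⟩
    · rw [betti_eq k l hl 2, T_B_five _ (X_smul_res 12), h4, h3']
      norm_num
    · simp
    · rw [betti_eq k l hl 3, T_B_six _ (X_smul_res 12), h4]
      norm_num
    · simp

end Pool.Agent.Results.MP_76aa63_al.FieldDependence
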